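import Pool.Agent.Helper89.KN.Spec
import Pool.Agent.Helper89.KN.Base

/-! KN, part HT: transfer of the hypothesis. -/

set_option linter.all false

open MeasureTheory Set Filter Topology
open scoped ENNReal

noncomputable section

namespace KN

namespace HTp

theorem conf_succAbove {m : ℕ} (x : Fin (m + 1) → ℂ) (j : Fin (m + 1)) :
    conf x = x j ::ₘ conf (fun i => x (j.succAbove i)) := by
  unfold conf
  rw [Fin.univ_succAbove _ j, Finset.cons_val, Multiset.map_cons, Finset.map_val, Multiset.map_map]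
  rfl

/-- the event that exactly one point of the configuration is in `Z`, and `Q` -/
def XE (Z : Set ℂ) (Q : ℂ → Multiset ℂ → Prop) (ω : Multiset ℂ) : Prop :=
  ∃ z ∈ Z, ∃ rest, ω = z ::ₘ rest ∧ Q z rest

theorem emeas_XE {Z : Set ℂ} (hZ : MeasurableSet Z) {Q : ℂ → Multiset ℂ → Prop} (hQ : JMeas Q) :
    EMeas (XE Z Q) := by
  intro m
  rcases m with _ | m
  · have : {x : Fin 0 → ℂ | XE Z Q (conf x)} = ∅ := by
      ext x
      simp only [mem_setOf_eq, mem_empty_iff_false, iff_false]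
      rintro ⟨z, _, rest, h, _⟩
      have h1 := congrArg Multiset.card h
      rw [card_conf, Multiset.card_cons] at h1
      omega
    rw [this]
    exact MeasurableSet.empty
  · have : {x : Fin (m + 1) → ℂ | XE Z Q (conf x)} =
        ⋃ j : Fin (m + 1), {x | x j ∈ Z ∧ Q (x j) (conf fun i => x (j.succAbove i))} := by
      ext x
      simp only [mem_setOf_eq, mem_iUnion]
      constructor
      · rintro ⟨z, hz, rest, h, hq⟩
        have hm : z ∈ conf x := by rw [h]; exact Multiset.mem_cons_self _ _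
        obtain ⟨j, rfl⟩ := mem_conf.1 hm
        refine ⟨j, hz, ?_⟩
        rw [conf_succAbove x j, Multiset.cons_inj_right] at h
        rw [h]
        exact hq
      · rintro ⟨j, hz, hq⟩
        exact ⟨x j, hz, _, conf_succAbove x j, hq⟩
    rw [this]
    refine MeasurableSet.iUnion fun j => ?_
    refine MeasurableSet.inter ?_ ?_
    · exact (measurable_pi_apply j) hZ
    · have hf : Measurable fun x : Fin (m + 1) → ℂ => (x j, fun i : Fin m => x (j.succAbove i)) :=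
        (measurable_pi_apply j).prodMk (measurable_pi_lambda _ fun i => measurable_pi_apply _)
      exact hf (hQ m)

/-- the event `X` -/
def QX (k : ℕ) (Λ : ℝ) (Z : Set ℂ) (z : ℂ) (ω : Multiset ℂ) : Prop :=
  cnt Z ω = 0 ∧ Iso k z {z} 0 0 Λ (res (Metric.ball z (2 * Λ)) ω)

/-- a vertex `z` with the event `X` has in-degree zero in a good configuration -/
theorem no_X {k m : ℕ} {Λ r : ℝ} (hr : r ≤ Λ) (hΛ : 0 < Λ) {x : Fin m → ℂ} (hNZ : NZ k x)
    (hg : ∀ i, k ≤ {l : Fin m | l ≠ i ∧ dist (x l) (x i) < r}.ncard) {W Z : Set ℂ}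
    (hW : ∀ z ∈ Z, Metric.ball z (2 * Λ) ⊆ W) (hZW : Z ⊆ W) :
    ¬ XE Z (QX k Λ Z) (res W (conf x)) := by
  rintro ⟨z, hz, rest, h, hcz, hiso⟩
  have hm : z ∈ res W (conf x) := by rw [h]; exact Multiset.mem_cons_self _ _
  rw [mem_res] at hm
  obtain ⟨j, rfl⟩ := mem_conf.1 hm.1
  obtain ⟨i, hij, hlt⟩ := hNZ j
  rcases m with _ | m
  · exact j.elim0
  rcases le_or_gt Λ (dist (x i) (x j)) with hd | hd
  · have h1 := hg i
    have h2 : {l : Fin (m + 1) | l ≠ i ∧ dist (x l) (x i) < r}.ncard ≤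
        {l : Fin (m + 1) | l ≠ i ∧ dist (x l) (x i) < dist (x j) (x i)}.ncard := by
      apply Set.ncard_le_ncard _ (Set.toFinite _)
      rintro l ⟨hl1, hl2⟩
      refine ⟨hl1, lt_of_lt_of_le hl2 ?_⟩
      rw [dist_comm (x j)]
      linarith
    omega
  · rw [conf_succAbove x j, res_cons_of_mem hm.2, Multiset.cons_inj_right] at h
    obtain ⟨i', hi'⟩ := Fin.exists_succAbove_eq hij
    have hp : x i ∈ res (Metric.ball (x j) (2 * Λ)) rest := by
      rw [mem_res, ← h, mem_res, mem_conf]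
      have hb : x i ∈ Metric.ball (x j) (2 * Λ) := by
        rw [Metric.mem_ball]; linarith
      exact ⟨⟨⟨i', by rw [hi']⟩, hW _ hz hb⟩, hb⟩
    have h1 := hiso.2 _ hp hd
    have h2 : cnt (Metric.ball (x i) (min (dist (x i) (x j)) (Metric.infDist (x i) {x j} + 0)))
        (res (Metric.ball (x j) (2 * Λ)) rest) ≤
        cnt (Metric.ball (x i) (dist (x i) (x j))) (conf fun i => x (j.succAbove i)) := by
      refine (cnt_mono (Metric.ball_subset_ball (min_le_left _ _)) _).trans ?_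
      refine cnt_le_cnt ?_
      refine (res_le _ _).trans ?_
      rw [← h]
      exact res_le _ _
    have h3 := h1.trans h2
    rw [cnt_conf_eq_ncard] at h3
    -- inject
    have h4 : {l : Fin m | x (j.succAbove l) ∈ Metric.ball (x i) (dist (x i) (x j))}.ncard ≤
        {l : Fin (m + 1) | l ≠ i ∧ dist (x l) (x i) < dist (x j) (x i)}.ncard + 1 := by
      have h5 : j.succAbove '' {l : Fin m | x (j.succAbove l) ∈
          Metric.ball (x i) (dist (x i) (x j))} ⊆
          insert i {l : Fin (m + 1) | l ≠ i ∧ dist (x l) (x i) < dist (x j) (x i)} := by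
        rintro _ ⟨l, hl, rfl⟩
        by_cases hli : j.succAbove l = i
        · left; exact hli
        · right
          refine ⟨hli, ?_⟩
          rw [mem_setOf_eq, Metric.mem_ball] at hl
          rwa [dist_comm (x j)]
      have h6 := Set.ncard_le_ncard h5 (Set.toFinite _)
      rw [Set.ncard_image_of_injective _ Fin.succAbove_right_injective] at h6
      exact h6.trans (Set.ncard_insert_le _ _)
    omega

theorem iso_map (k : ℕ) (z : ℂ) (Λ : ℝ) (ω : Multiset ℂ) :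
    Iso k z {z} 0 0 Λ (ω.map (fun w => w + z)) ↔ Iso k 0 {0} 0 0 Λ ω := by
  have hc : ∀ (p : ℂ) (r : ℝ), (fun w : ℂ => w + z) ⁻¹' Metric.ball (p + z) r =
      Metric.ball p r := by
    intro p r
    ext w
    rw [mem_preimage, Metric.mem_ball, Metric.mem_ball, dist_add_right]
  have hd : ∀ p : ℂ, dist (p + z) z = dist p 0 := by
    intro p
    have := dist_add_right p 0 z
    rwa [zero_add] at this
  unfold Iso
  simp only [Multiset.mem_map, Metric.infDist_singleton]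
  constructor
  · rintro ⟨h1, h2⟩
    refine ⟨fun p _ => dist_nonneg, fun p hp hpd => ?_⟩
    have h3 := h2 (p + z) ⟨p, hp, rfl⟩ (by rwa [hd])
    rwa [hd, cnt_map, hc] at h3
  · rintro ⟨h1, h2⟩
    refine ⟨fun p _ => dist_nonneg, ?_⟩
    rintro _ ⟨p, hp, rfl⟩ hpd
    rw [hd] at hpd
    have h3 := h2 p hp hpd
    rw [hd, cnt_map, hc]
    exact h3

theorem PP_trans (hRES : S_RES) (hISOM : S_ISOM) (hMAPE : S_MAPE) (k : ℕ) (Λ : ℝ) (z : ℂ)
    (W : Set ℂ) (hW : MeasurableSet W) (hWf : volume W ≠ ⊤) (hb : Metric.ball z (2 * Λ) ⊆ W) :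
    PP W (fun ω => Iso k z {z} 0 0 Λ (res (Metric.ball z (2 * Λ)) ω)) = pk k Λ := by
  rw [hRES W (Metric.ball z (2 * Λ)) hW Metric.isOpen_ball.measurableSet hb hWf
    (Iso k z {z} 0 0 Λ) (hISOM.1 k z {z} 0 0 Λ univ MeasurableSet.univ).2]
  have h1 := hMAPE (Metric.ball 0 (2 * Λ)) (MeasurableEquiv.addRight z)
    (measurePreserving_add_right volume z) (Iso k z {z} 0 0 Λ)
  have h2 : (MeasurableEquiv.addRight z : ℂ ≃ᵐ ℂ) '' Metric.ball 0 (2 * Λ) =
      Metric.ball z (2 * Λ) := by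
    ext w
    constructor
    · rintro ⟨y, hy, rfl⟩
      rw [Metric.mem_ball, dist_zero_right] at hy
      rw [Metric.mem_ball]
      show dist (y + z) z < _
      rwa [dist_eq_norm, add_sub_cancel_right]
    · intro hw
      refine ⟨w - z, ?_, ?_⟩
      · rw [Metric.mem_ball, dist_zero_right, ← dist_eq_norm]
        exact hw
      · show w - z + z = w
        ring
  rw [h2] at h1
  rw [← h1, pk]
  congr 1
  funext ω
  exact propext (iso_map k z Λ ω)

theorem PP_mono (hB : S_BASIC) {S : Set ℂ} (hS : MeasurableSet S) {Q Q' : Multiset ℂ → Prop}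
    (h : ∀ ω, Q ω → Q' ω) : PP S Q ≤ PP S Q' :=
  hB.1 S _ _ hS fun m x _ hx => h _ hx

theorem PP_or (hB : S_BASIC) {S : Set ℂ} (Q Q' : Multiset ℂ → Prop) :
    PP S (fun ω => Q ω ∨ Q' ω) ≤ PP S Q + PP S Q' := hB.2.1 S _ _

theorem prob_le_one (hB : S_BASIC) {S : Set ℂ} (hS : MeasurableSet S) (hSf : volume S ≠ ⊤)
    (Q : ∀ m : ℕ, (Fin m → ℂ) → Prop) : prob S Q ≤ 1 := by
  rw [← hB.2.2.2.1 S hSf]
  exact hB.1 S _ _ hS fun m x _ _ => trivial

/-- lower bound for the probability of `X` -/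
theorem lower_X (hB : S_BASIC) (hRES : S_RES) (hISOM : S_ISOM) (hMAPE : S_MAPE) (hONE : S_ONEPT)
    (hCHU : S_CHU) (k : ℕ) (Λ ρ a ζ : ℝ) (W Z : Set ℂ) (hW : MeasurableSet W)
    (hZ : MeasurableSet Z) (hWf : volume W ≠ ⊤) (hZW : Z ⊆ W)
    (hb : ∀ z ∈ Z, Metric.ball z (2 * Λ) ⊆ W) (hρ : ρ ≤ 2 * Λ)
    (hd : ∀ z ∈ Z, ∀ z' ∈ Z, 2 * dist z z' < ρ) (ha : 0 ≤ a) (hζ : 1 ≤ ζ)
    (hvol : ∀ z : ℂ, volume (Metric.ball z ρ) ≤ ENNReal.ofReal a) :
    volume Z * (pk k Λ - ENNReal.ofReal (Real.exp (a * (ζ - 1)) / ζ ^ (k + 1))) ≤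
      PP W (XE Z (QX k Λ Z)) := by
  set err := ENNReal.ofReal (Real.exp (a * (ζ - 1)) / ζ ^ (k + 1)) with herr
  have h1 := hONE W Z hW hZ hZW hWf
    (fun z ω => Iso k z {z} 0 0 Λ (res (Metric.ball z (2 * Λ)) ω)) (hISOM.2.2.1 k 0 Λ (2 * Λ))
  refine le_trans ?_ h1
  have h2 : ∀ z ∈ Z, pk k Λ - err ≤
      PP W (fun ω => cnt Z ω = 0 ∧ Iso k z {z} 0 0 Λ (res (Metric.ball z (2 * Λ)) ω)) := by
    intro z hz
    rw [tsub_le_iff_right, ← PP_trans hRES hISOM hMAPE k Λ z W hW hWf (hb z hz)]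
    have h3 := hCHU W (Metric.ball z ρ) a ζ (k + 1) hW Metric.isOpen_ball.measurableSet
      ((Metric.ball_subset_ball hρ).trans (hb z hz)) hWf ha hζ (hvol z)
    refine le_trans ?_ (add_le_add le_rfl h3)
    refine le_trans (PP_mono hB hW ?_) (PP_or hB _ _)
    intro ω hω
    by_cases hc : cnt Z ω = 0
    · exact Or.inl ⟨hc, hω⟩
    · right
      rw [cnt_eq_zero] at hc
      push Not at hc
      obtain ⟨p, hp, hpZ⟩ := hc
      have hpz := hd p hpZ z hz
      have h4 := hω.2 p (by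
        rw [mem_res, Metric.mem_ball]
        exact ⟨hp, by have := dist_nonneg (x := p) (y := z); linarith⟩) (by linarith)
      refine h4.trans ?_
      refine (cnt_le_cnt (res_le _ _)).trans (cnt_mono ?_ _)
      refine (Metric.ball_subset_ball (min_le_left _ _)).trans ?_
      apply Metric.ball_subset_ball'
      linarith
  calc volume Z * (pk k Λ - err) = ∫⁻ z in Z, (pk k Λ - err) := by
        rw [setLIntegral_const, mul_comm]
    _ ≤ ∫⁻ z in Z, PP W (fun ω => cnt Z ω = 0 ∧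
        Iso k z {z} 0 0 Λ (res (Metric.ball z (2 * Λ)) ω)) :=
        setLIntegral_mono' hZ h2

theorem PP_not (hB : S_BASIC) {S : Set ℂ} (hS : MeasurableSet S) (hSf : volume S ≠ ⊤)
    {Q : Multiset ℂ → Prop} (hQ : EMeas Q) : PP S (fun ω => ¬ Q ω) = 1 - PP S Q := by
  have h1 := hB.2.2.2.2 S (fun m x => Q (conf x)) hSf hQ
  have h2 : PP S Q ≠ ⊤ := ne_top_of_le_ne_top ENNReal.one_ne_top (prob_le_one hB hS hSf _)
  exact ENNReal.eq_sub_of_add_eq h2 (by rw [add_comm]; exact h1)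

/-- the estimate for fixed `n` -/
theorem fixed_n (hB : S_BASIC) (hRES : S_RES) (hISOM : S_ISOM) (hMAPE : S_MAPE) (hONE : S_ONEPT)
    (hCHU : S_CHU) (hFAM : S_FAM) (S : Set ℂ) (hS : MeasurableSet S) (hSf : volume S ≠ ⊤)
    (k N : ℕ) (Λ ρ r a ζ : ℝ) (A : ℝ≥0∞) (W Z : Fin N → Set ℂ) (hΛ : 0 < Λ) (hr : r ≤ Λ)
    (hW : ∀ i, MeasurableSet (W i)) (hZ : ∀ i, MeasurableSet (Z i)) (hWS : ∀ i, W i ⊆ S)
    (hdisj : ∀ i j, i ≠ j → Disjoint (W i) (W j)) (hZW : ∀ i, Z i ⊆ W i)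
    (hA : ∀ i, volume (Z i) = A)
    (hb : ∀ i, ∀ z ∈ Z i, Metric.ball z (2 * Λ) ⊆ W i) (hρ : ρ ≤ 2 * Λ)
    (hd : ∀ i, ∀ z ∈ Z i, ∀ z' ∈ Z i, 2 * dist z z' < ρ) (ha : 0 ≤ a) (hζ : 1 ≤ ζ)
    (hvol : ∀ z : ℂ, volume (Metric.ball z ρ) ≤ ENNReal.ofReal a) :
    prob S (fun _ x => NZ k x) ≤
      (1 - A * (pk k Λ - ENNReal.ofReal (Real.exp (a * (ζ - 1)) / ζ ^ (k + 1)))) ^ N +
      prob S (fun m x => ∃ i : Fin m, {l : Fin m | l ≠ i ∧ dist (x l) (x i) < r}.ncard < k) := by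
  have hWf : ∀ i, volume (W i) ≠ ⊤ := fun i => ne_top_of_le_ne_top hSf (measure_mono (hWS i))
  have hQ : ∀ i, JMeas (QX k Λ (Z i)) := by
    intro i m
    refine MeasurableSet.inter ?_ (hISOM.2.2.1 k 0 Λ (2 * Λ) m)
    have : MeasurableSet {x : Fin m → ℂ | cnt (Z i) (conf x) = 0} := by
      have e : {x : Fin m → ℂ | cnt (Z i) (conf x) = 0} = ⋂ j, {x | x j ∉ Z i} := by
        ext x
        simp only [mem_setOf_eq, mem_iInter, cnt_eq_zero, mem_conf]
        constructor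
        · intro h j
          exact h _ ⟨j, rfl⟩
        · rintro h _ ⟨j, rfl⟩
          exact h j
      rw [e]
      refine MeasurableSet.iInter fun j => ?_
      show MeasurableSet ((fun x : Fin m → ℂ => x j) ⁻¹' (Z i)ᶜ)
      exact (measurable_pi_apply j) (hZ i).compl
    exact measurable_snd this
  have hX : ∀ i, EMeas (XE (Z i) (QX k Λ (Z i))) := fun i => emeas_XE (hZ i) (hQ i)
  have h1 : prob S (fun _ x => NZ k x) ≤
      PP S (fun ω => ∀ i, ¬ XE (Z i) (QX k Λ (Z i)) (res (W i) ω)) +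
      prob S (fun m x => ∃ i : Fin m, {l : Fin m | l ≠ i ∧ dist (x l) (x i) < r}.ncard < k) := by
    refine le_trans (hB.1 S _ _ hS ?_) (hB.2.1 S _ _)
    intro m x _ hNZ
    by_cases hg : ∃ i : Fin m, {l : Fin m | l ≠ i ∧ dist (x l) (x i) < r}.ncard < k
    · exact Or.inr hg
    · left
      push Not at hg
      intro i
      exact no_X hr hΛ hNZ hg (hb i) (hZW i)
  refine h1.trans (add_le_add ?_ le_rfl)
  rw [hFAM S N W (fun i ω => ¬ XE (Z i) (QX k Λ (Z i)) ω) hS hW hWS hdisj hSf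
    (fun i m => (hX i m).compl)]
  calc ∏ i, PP (W i) (fun ω => ¬ XE (Z i) (QX k Λ (Z i)) ω)
      ≤ ∏ i : Fin N, (1 - A * (pk k Λ - ENNReal.ofReal (Real.exp (a * (ζ - 1)) / ζ ^ (k + 1)))) := by
        refine Finset.prod_le_prod' fun i _ => ?_
        rw [PP_not hB (hW i) (hWf i) (hX i)]
        refine tsub_le_tsub_left ?_ _
        rw [← hA i]
        exact lower_X hB hRES hISOM hMAPE hONE hCHU k Λ ρ a ζ (W i) (Z i) (hW i) (hZ i) (hWf i)
          (hZW i) (hb i) hρ (hd i) ha hζ hvol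
    _ = _ := by rw [Finset.prod_const, Finset.card_univ, Fintype.card_fin]

/-! ### The blocks -/

/-- block -/
def bW (b : ℝ) (p q : ℕ) : Set ℂ :=
  {z | p * b ≤ z.re ∧ z.re < (p + 1) * b ∧ q * b ≤ z.im ∧ z.im < (q + 1) * b}

/-- small square in the middle of the block -/
def bZ (b s : ℝ) (p q : ℕ) : Set ℂ :=
  {z | (p + 1 / 2) * b - s / 2 ≤ z.re ∧ z.re ≤ (p + 1 / 2) * b + s / 2 ∧
    (q + 1 / 2) * b - s / 2 ≤ z.im ∧ z.im ≤ (q + 1 / 2) * b + s / 2}

theorem meas_bW (b : ℝ) (p q : ℕ) : MeasurableSet (bW b p q) :=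
  (measurableSet_le measurable_const Complex.measurable_re).inter
    ((measurableSet_lt Complex.measurable_re measurable_const).inter
    ((measurableSet_le measurable_const Complex.measurable_im).inter
    (measurableSet_lt Complex.measurable_im measurable_const)))

theorem meas_bZ (b s : ℝ) (p q : ℕ) : MeasurableSet (bZ b s p q) :=
  (measurableSet_le measurable_const Complex.measurable_re).inter
    ((measurableSet_le Complex.measurable_re measurable_const).inter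
    ((measurableSet_le measurable_const Complex.measurable_im).inter
    (measurableSet_le Complex.measurable_im measurable_const)))

theorem vol_rect (a b c d : ℝ) :
    volume {z : ℂ | a ≤ z.re ∧ z.re ≤ b ∧ c ≤ z.im ∧ z.im ≤ d} =
      ENNReal.ofReal (b - a) * ENNReal.ofReal (d - c) := by
  have h1 : {z : ℂ | a ≤ z.re ∧ z.re ≤ b ∧ c ≤ z.im ∧ z.im ≤ d} =
      Complex.measurableEquivRealProd ⁻¹' (Icc a b ×ˢ Icc c d) := by
    ext z
    simp only [mem_setOf_eq, mem_preimage, mem_prod, mem_Icc,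
      Complex.measurableEquivRealProd_apply]
    tauto
  rw [h1, Complex.volume_preserving_equiv_real_prod.measure_preimage
    (measurableSet_Icc.prod measurableSet_Icc).nullMeasurableSet, Measure.volume_eq_prod,
    Measure.prod_prod, Real.volume_Icc, Real.volume_Icc]

theorem vol_bZ (b : ℝ) {s : ℝ} (hs : 0 < s) (p q : ℕ) :
    volume (bZ b s p q) = ENNReal.ofReal (s ^ 2) := by
  unfold bZ
  rw [vol_rect, ← ENNReal.ofReal_mul (by linarith)]
  congr 1
  ring

theorem bW_disj {b : ℝ} (hb : 0 < b) {p q p' q' : ℕ} (h : ¬ (p = p' ∧ q = q')) :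
    Disjoint (bW b p q) (bW b p' q') := by
  rw [Set.disjoint_left]
  rintro z ⟨h1, h2, h3, h4⟩ ⟨k1, k2, k3, k4⟩
  apply h
  have key : ∀ (x : ℝ) (u v : ℕ), u * b ≤ x → x < (u + 1) * b → v * b ≤ x → x < (v + 1) * b →
      u = v := by
    intro x u v a1 a2 a3 a4
    have e1 : (u : ℝ) < v + 1 := by
      by_contra hc
      have := mul_le_mul_of_nonneg_right (not_lt.1 hc) hb.le
      linarith
    have e2 : (v : ℝ) < u + 1 := by
      by_contra hc
      have := mul_le_mul_of_nonneg_right (not_lt.1 hc) hb.le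
      linarith
    have e3 : u < v + 1 := by exact_mod_cast e1
    have e4 : v < u + 1 := by exact_mod_cast e2
    omega
  exact ⟨key _ _ _ h1 h2 k1 k2, key _ _ _ h3 h4 k3 k4⟩

theorem bW_sub {b n : ℝ} (hb : 0 < b) {m p q : ℕ} (hm : m * b ≤ Real.sqrt n) (hp : p < m)
    (hq : q < m) : bW b p q ⊆ Sq n := by
  rintro z ⟨h1, h2, h3, h4⟩
  have key : ∀ (x : ℝ) (u : ℕ), u < m → u * b ≤ x → x < (u + 1) * b → 0 ≤ x ∧ x ≤ Real.sqrt n := by
    intro x u hu a1 a2
    have e1 : (u : ℝ) + 1 ≤ m := by exact_mod_cast hu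
    have e2 := mul_le_mul_of_nonneg_right e1 hb.le
    exact ⟨by have : (0 : ℝ) ≤ u * b := by positivity
              linarith, by linarith⟩
  exact ⟨(key _ _ hp h1 h2).1, (key _ _ hp h1 h2).2, (key _ _ hq h3 h4).1, (key _ _ hq h3 h4).2⟩

theorem bZ_ball {b s Λ : ℝ} (hΛ : b = 5 * Λ) (hs : s ≤ Λ) {p q : ℕ} {z : ℂ}
    (hz : z ∈ bZ b s p q) : Metric.ball z (2 * Λ) ⊆ bW b p q := by
  intro w hw
  rw [Metric.mem_ball, dist_eq_norm] at hw
  have h1 := Complex.abs_re_le_norm (w - z)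
  have h2 := Complex.abs_im_le_norm (w - z)
  rw [Complex.sub_re, abs_le] at h1
  rw [Complex.sub_im, abs_le] at h2
  obtain ⟨k1, k2, k3, k4⟩ := hz
  subst hΛ
  refine ⟨?_, ?_, ?_, ?_⟩ <;> nlinarith [h1.1, h1.2, h2.1, h2.2]

theorem bZ_sub {b s : ℝ} (hb : 0 < b) (hs : s < b) (hs0 : 0 < s) (p q : ℕ) :
    bZ b s p q ⊆ bW b p q := by
  rintro z ⟨k1, k2, k3, k4⟩
  refine ⟨?_, ?_, ?_, ?_⟩ <;> nlinarith

theorem bZ_dist {b s : ℝ} (hs0 : 0 < s) {p q : ℕ} {z z' : ℂ} (hz : z ∈ bZ b s p q)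
    (hz' : z' ∈ bZ b s p q) : 2 * dist z z' < 5 * s := by
  have h1 : dist z z' ≤ |(z - z').re| + |(z - z').im| := by
    rw [dist_eq_norm]
    exact Complex.norm_le_abs_re_add_abs_im _
  obtain ⟨k1, k2, k3, k4⟩ := hz
  obtain ⟨l1, l2, l3, l4⟩ := hz'
  have h2 : |(z - z').re| ≤ s := by
    rw [Complex.sub_re, abs_le]; constructor <;> linarith
  have h3 : |(z - z').im| ≤ s := by
    rw [Complex.sub_im, abs_le]; constructor <;> linarith
  linarith

theorem vol_ball5 (s : ℝ) (hs : 0 < s) (z : ℂ) :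
    volume (Metric.ball z (5 * s)) ≤ ENNReal.ofReal (80 * s ^ 2) := by
  rw [Complex.volume_ball]
  have h1 : (NNReal.pi : ℝ≥0∞) = ENNReal.ofReal Real.pi := by
    rw [ENNReal.ofReal, Real.toNNReal_of_nonneg Real.pi_pos.le]
    rfl
  rw [h1, ← ENNReal.ofReal_pow (by positivity), ← ENNReal.ofReal_mul (by positivity)]
  apply ENNReal.ofReal_le_ofReal
  have := Real.pi_lt_d2
  nlinarith [sq_nonneg s, pow_pos hs 2]

theorem meas_Sq (n : ℝ) : MeasurableSet (Sq n) :=
  (measurableSet_le measurable_const Complex.measurable_re).inter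
    ((measurableSet_le Complex.measurable_re measurable_const).inter
    ((measurableSet_le measurable_const Complex.measurable_im).inter
    (measurableSet_le Complex.measurable_im measurable_const)))

theorem vol_Sq (n : ℝ) : volume (Sq n) ≠ ⊤ := by
  unfold Sq SqL
  rw [vol_rect]
  exact ENNReal.mul_ne_top ENNReal.ofReal_ne_top ENNReal.ofReal_ne_top

/-- the estimate for fixed `n`, with the blocks -/
theorem fixed_n2 (hB : S_BASIC) (hRES : S_RES) (hISOM : S_ISOM) (hMAPE : S_MAPE) (hONE : S_ONEPT)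
    (hCHU : S_CHU) (hFAM : S_FAM) (n : ℝ)
    (k m : ℕ) (Λ s r ζ : ℝ) (hm : 0 < m) (hΛ : 0 < Λ) (hr : r ≤ Λ) (hs : 0 < s)
    (hsΛ : 5 * s ≤ 2 * Λ) (hmn : m * (5 * Λ) ≤ Real.sqrt n) (hζ : 1 ≤ ζ) :
    (ENNReal.ofReal (s ^ 2) * (pk k Λ - ENNReal.ofReal (Real.exp (80 * s ^ 2 * (ζ - 1)) /
      ζ ^ (k + 1))) ≤ 1) ∧
    prob (Sq n) (fun _ x => NZ k x) ≤
      (1 - ENNReal.ofReal (s ^ 2) * (pk k Λ - ENNReal.ofReal (Real.exp (80 * s ^ 2 * (ζ - 1)) /
        ζ ^ (k + 1)))) ^ (m * m) +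
      prob (Sq n) (fun m x => ∃ i : Fin m,
        {l : Fin m | l ≠ i ∧ dist (x l) (x i) < r}.ncard < k) := by
  have hb : 0 < 5 * Λ := by linarith
  have hWf : ∀ p q : ℕ, p < m → q < m → volume (bW (5 * Λ) p q) ≠ ⊤ := fun p q hp hq =>
    ne_top_of_le_ne_top (vol_Sq n) (measure_mono (bW_sub hb hmn hp hq))
  constructor
  · have h1 := lower_X hB hRES hISOM hMAPE hONE hCHU k Λ (5 * s) (80 * s ^ 2) ζ
      (bW (5 * Λ) 0 0) (bZ (5 * Λ) s 0 0) (meas_bW _ _ _) (meas_bZ _ _ _ _) (hWf 0 0 hm hm)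
      (bZ_sub hb (by linarith) hs _ _) (fun z hz => bZ_ball rfl (by linarith) hz) hsΛ
      (fun z hz z' hz' => bZ_dist hs hz hz') (by positivity) hζ (vol_ball5 s hs)
    rw [vol_bZ _ hs] at h1
    exact h1.trans (prob_le_one hB (meas_bW _ _ _) (hWf 0 0 hm hm) _)
  · have hidx : ∀ i : Fin (m * m), (i : ℕ) / m < m ∧ (i : ℕ) % m < m := fun i =>
      ⟨Nat.div_lt_of_lt_mul i.2, Nat.mod_lt _ hm⟩
    exact fixed_n hB hRES hISOM hMAPE hONE hCHU hFAM (Sq n) (meas_Sq n) (vol_Sq n) k (m * m) Λ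
      (5 * s) r (80 * s ^ 2) ζ (ENNReal.ofReal (s ^ 2))
      (fun i => bW (5 * Λ) ((i : ℕ) / m) ((i : ℕ) % m))
      (fun i => bZ (5 * Λ) s ((i : ℕ) / m) ((i : ℕ) % m)) hΛ hr
      (fun i => meas_bW _ _ _) (fun i => meas_bZ _ _ _ _)
      (fun i => bW_sub hb hmn (hidx i).1 (hidx i).2)
      (fun i j hij => bW_disj hb fun h => hij (by
        apply Fin.ext
        rw [← Nat.div_add_mod (i : ℕ) m, ← Nat.div_add_mod (j : ℕ) m, h.1, h.2]))
      (fun i => bZ_sub hb (by linarith) hs _ _) (fun i => vol_bZ _ hs _ _)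
      (fun i z hz => bZ_ball rfl (by linarith) hz) hsΛ
      (fun i z hz z' hz' => bZ_dist hs hz hz') (by positivity) hζ (vol_ball5 s hs)

/-- from the estimate in `ℝ≥0∞` to real numbers -/
theorem to_real {A f g : ℝ≥0∞} {M : ℕ} (hA : A ≤ 1) (hf : f ≤ 1) (hg : g ≤ 1)
    (h : f ≤ (1 - A) ^ M + g) : f.toReal - g.toReal ≤ Real.exp (-(M * A.toReal)) := by
  have hg' : g ≠ ⊤ := ne_top_of_le_ne_top ENNReal.one_ne_top hg
  have h1 : (1 - A) ^ M ≠ ⊤ :=
    ENNReal.pow_ne_top (ne_top_of_le_ne_top ENNReal.one_ne_top tsub_le_self)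
  have h2 := ENNReal.toReal_mono (ENNReal.add_ne_top.2 ⟨h1, hg'⟩) h
  rw [ENNReal.toReal_add h1 hg', ENNReal.toReal_pow, ENNReal.toReal_sub_of_le hA ENNReal.one_ne_top,
    ENNReal.toReal_one] at h2
  have hA1 : A.toReal ≤ 1 := by
    have := ENNReal.toReal_mono ENNReal.one_ne_top hA
    rwa [ENNReal.toReal_one] at this
  have h3 : (1 - A.toReal) ^ M ≤ Real.exp (-(M * A.toReal)) := by
    have h4 : 1 - A.toReal ≤ Real.exp (-A.toReal) := by
      have := Real.add_one_le_exp (-A.toReal)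
      linarith
    calc (1 - A.toReal) ^ M ≤ (Real.exp (-A.toReal)) ^ M :=
          pow_le_pow_left₀ (by linarith) h4 M
      _ = Real.exp (-(M * A.toReal)) := by
          rw [← Real.exp_nat_mul]
          ring_nf
  linarith

theorem err_le {c n : ℝ} (hc : 0 < c) (hn : 1 < n) {s₀ : ℝ} (hs : 80 * s₀ ^ 2 *
    (Real.exp (4 / c) - 1) ≤ 1) :
    Real.exp (80 * (s₀ * lam n) ^ 2 * (Real.exp (4 / c) - 1)) / Real.exp (4 / c) ^ (kn c n + 1) ≤
      Real.exp (-(3 * Real.log n)) := by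
  have hL : 0 < Real.log n := Real.log_pos hn
  have h1 : (lam n) ^ 2 = Real.log n := Real.sq_sqrt hL.le
  have h2 : 80 * (s₀ * lam n) ^ 2 * (Real.exp (4 / c) - 1) ≤ Real.log n := by
    rw [mul_pow, h1]
    nlinarith
  have h3 : Real.exp (4 * Real.log n) ≤ Real.exp (4 / c) ^ (kn c n + 1) := by
    rw [← Real.exp_nat_mul]
    apply Real.exp_le_exp.2
    have h4 : c * Real.log n < kn c n + 1 := Nat.lt_floor_add_one _
    push_cast
    rw [show ((kn c n : ℝ) + 1) * (4 / c) = 4 * (((kn c n : ℝ) + 1) / c) by ring]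
    have h5 : Real.log n ≤ ((kn c n : ℝ) + 1) / c := by
      rw [le_div_iff₀ hc]; linarith
    linarith
  rw [div_le_iff₀ (by positivity)]
  calc Real.exp (80 * (s₀ * lam n) ^ 2 * (Real.exp (4 / c) - 1)) ≤ Real.exp (Real.log n) :=
        Real.exp_le_exp.2 h2
    _ = Real.exp (-(3 * Real.log n)) * Real.exp (4 * Real.log n) := by
        rw [← Real.exp_add]; ring_nf
    _ ≤ _ := mul_le_mul_of_nonneg_left h3 (Real.exp_pos _).le

end HTp

open HTp in
theorem ht_thm (hB : S_BASIC) (hRES : S_RES) (hISOM : S_ISOM) (hMAPE : S_MAPE) (hONE : S_ONEPT)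
    (hCHU : S_CHU) (hFAM : S_FAM) (hG2 : S_G2) : S_HT := by
  intro c hc
  obtain ⟨C₂, hC₂, hg, _⟩ := hG2 c hc
  refine ⟨C₂, hC₂, fun C hC l hl hNZ => ?_⟩
  have hC0 : 0 < C := lt_of_lt_of_le hC₂ hC
  set ζ : ℝ := Real.exp (4 / c) with hζdef
  have hζ : 1 ≤ ζ := Real.one_le_exp (by positivity)
  set s₀ : ℝ := min (2 * C / 5) (1 / (80 * ζ)) with hs₀
  have hs0 : 0 < s₀ := lt_min (by positivity) (by positivity)
  have hs1 : 5 * s₀ ≤ 2 * C := by
    have := min_le_left (2 * C / 5) (1 / (80 * ζ))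
    rw [← hs₀] at this
    linarith
  have hs2 : 80 * s₀ ^ 2 * (ζ - 1) ≤ 1 := by
    have h1 : s₀ ≤ 1 / (80 * ζ) := min_le_right _ _
    have h2 : s₀ * (80 * ζ) ≤ 1 := by rwa [le_div_iff₀ (by positivity)] at h1
    have h3 : s₀ ≤ 1 := by nlinarith
    nlinarith [mul_nonneg hs0.le (sub_nonneg.2 h3), mul_pos hs0 (lt_of_lt_of_le one_pos hζ)]
  set κ : ℝ := s₀ ^ 2 / (100 * C ^ 2) with hκ
  have hκ0 : 0 < κ := by positivity
  let f : ℝ → ℝ≥0∞ := fun n => prob (Sq n) (fun _ x => NZ (kn c n) x)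
  let g : ℝ → ℝ≥0∞ := fun n => prob (Sq n) (fun m x => ∃ i : Fin m,
      {l : Fin m | l ≠ i ∧ dist (x l) (x i) < C₂ * lam n}.ncard < kn c n)
  have hf1 : Tendsto (fun n => (f n).toReal) l (𝓝 1) := by
    have := (ENNReal.tendsto_toReal ENNReal.one_ne_top).comp hNZ
    rwa [ENNReal.toReal_one] at this
  have hg1 : Tendsto (fun n => (g n).toReal) l (𝓝 0) := by
    have := (ENNReal.tendsto_toReal ENNReal.zero_ne_top).comp (hg.mono_left hl)
    rwa [ENNReal.toReal_zero] at this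
  have hF : Tendsto (fun n => (f n).toReal - (g n).toReal) l (𝓝 1) := by
    have := hf1.sub hg1
    rwa [sub_zero] at this
  -- the bound
  let U : ℝ → ℝ := fun n => κ⁻¹ * (-Real.log ((f n).toReal - (g n).toReal)) +
    Real.exp (-(2 * Real.log n))
  have hU : Tendsto U l (𝓝 0) := by
    have h1 : Tendsto (fun n => κ⁻¹ * (-Real.log ((f n).toReal - (g n).toReal))) l (𝓝 0) := by
      have h2 := ((Real.continuousAt_log (one_ne_zero)).tendsto.comp hF).neg.const_mul κ⁻¹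
      rw [Real.log_one, neg_zero, mul_zero] at h2
      exact h2
    have h3 : Tendsto (fun n => Real.exp (-(2 * Real.log n))) l (𝓝 0) := by
      refine Tendsto.mono_left ?_ hl
      refine Real.tendsto_exp_atBot.comp ?_
      exact tendsto_neg_atTop_atBot.comp (Real.tendsto_log_atTop.const_mul_atTop two_pos)
    have := h1.add h3
    rwa [add_zero] at this
  -- eventually
  have hlog : ∀ᶠ n in atTop, Real.log n ≤ 1 / (25 * C ^ 2) * n := by
    have h1 := Real.isLittleO_log_id_atTop.bound (c := 1 / (25 * C ^ 2)) (by positivity)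
    filter_upwards [h1, eventually_gt_atTop (1 : ℝ)] with n hn hn1
    rw [Real.norm_eq_abs, Real.norm_eq_abs, abs_of_pos (Real.log_pos hn1)] at hn
    simp only [id] at hn
    rwa [abs_of_pos (by linarith)] at hn
  have key : ∀ᶠ n in l, n * (pk (kn c n) (C * lam n)).toReal ≤ U n := by
    filter_upwards [hl hlog, hl (eventually_gt_atTop (1 : ℝ)),
      hF.eventually (lt_mem_nhds (show (0 : ℝ) < 1 by norm_num))] with n hn hn1 hFn
    have hn0 : 0 < n := by linarith
    have hL : 0 < Real.log n := Real.log_pos hn1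
    have hlam : 0 < lam n := Real.sqrt_pos.2 hL
    have hlam2 : (lam n) ^ 2 = Real.log n := Real.sq_sqrt hL.le
    set Λ : ℝ := C * lam n with hΛ
    have hΛ0 : 0 < Λ := by positivity
    set s : ℝ := s₀ * lam n with hs
    have hsp : 0 < s := by positivity
    set X : ℝ := Real.sqrt n / (5 * Λ) with hX
    have hX1 : 1 ≤ X := by
      rw [hX, le_div_iff₀ (by positivity), one_mul]
      apply Real.le_sqrt_of_sq_le
      rw [hΛ]
      calc (5 * (C * lam n)) ^ 2 = 25 * C ^ 2 * (lam n) ^ 2 := by ring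
        _ = 25 * C ^ 2 * Real.log n := by rw [hlam2]
        _ ≤ 25 * C ^ 2 * (1 / (25 * C ^ 2) * n) := by gcongr
        _ = n := by field_simp
    set m : ℕ := ⌊X⌋₊ with hm
    have hm1 : 0 < m := Nat.floor_pos.2 hX1
    have hmX : (m : ℝ) ≤ X := Nat.floor_le (by linarith)
    have hmX2 : X ≤ 2 * m := by
      have h1 : X < m + 1 := Nat.lt_floor_add_one X
      have h2 : (1 : ℝ) ≤ m := by exact_mod_cast hm1
      linarith
    have hmn : m * (5 * Λ) ≤ Real.sqrt n := by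
      calc (m : ℝ) * (5 * Λ) ≤ X * (5 * Λ) := by gcongr
        _ = Real.sqrt n := by rw [hX]; field_simp
    obtain ⟨hA, hfix⟩ := fixed_n2 hB hRES hISOM hMAPE hONE hCHU hFAM n (kn c n) m Λ s
      (C₂ * lam n) ζ hm1 hΛ0 (by rw [hΛ]; gcongr) hsp (by rw [hs, hΛ]; nlinarith) hmn hζ
    set e : ℝ := Real.exp (80 * s ^ 2 * (ζ - 1)) / ζ ^ (kn c n + 1) with he
    have hee : e ≤ Real.exp (-(3 * Real.log n)) := err_le hc hn1 hs2
    set P : ℝ≥0∞ := pk (kn c n) Λ with hP
    have hP1 : P ≤ 1 := prob_le_one hB Metric.isOpen_ball.measurableSet measure_ball_lt_top.ne _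
    have hPt : P ≠ ⊤ := ne_top_of_le_ne_top ENNReal.one_ne_top hP1
    set d : ℝ := (P - ENNReal.ofReal e).toReal with hd
    have hdt : P - ENNReal.ofReal e ≠ ⊤ := ne_top_of_le_ne_top hPt tsub_le_self
    have hd0 : 0 ≤ d := ENNReal.toReal_nonneg
    have hq : P.toReal ≤ d + e := by
      have h1 : P ≤ (P - ENNReal.ofReal e) + ENNReal.ofReal e := le_tsub_add
      have h2 := ENNReal.toReal_mono (ENNReal.add_ne_top.2 ⟨hdt, ENNReal.ofReal_ne_top⟩) h1
      rw [ENNReal.toReal_add hdt ENNReal.ofReal_ne_top,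
        ENNReal.toReal_ofReal (by positivity)] at h2
      exact h2
    have hr := to_real hA (prob_le_one hB (meas_Sq n) (vol_Sq n) _)
      (prob_le_one hB (meas_Sq n) (vol_Sq n) _) hfix
    rw [ENNReal.toReal_mul, ENNReal.toReal_ofReal (by positivity)] at hr
    have hr2 : Real.log ((f n).toReal - (g n).toReal) ≤ -(((m * m : ℕ) : ℝ) * (s ^ 2 * d)) := by
      rw [← Real.log_exp (-(((m * m : ℕ) : ℝ) * (s ^ 2 * d)))]
      exact Real.log_le_log hFn hr
    have hmm : κ * n ≤ ((m * m : ℕ) : ℝ) * s ^ 2 := by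
      push_cast
      have h1 : n = (2 * X * (5 * Λ / 2)) ^ 2 := by
        rw [hX]
        have : 2 * (Real.sqrt n / (5 * Λ)) * (5 * Λ / 2) = Real.sqrt n := by field_simp
        rw [this, Real.sq_sqrt hn0.le]
      have h2 : κ * n = (X / 2) ^ 2 * s ^ 2 := by
        rw [hκ, h1, hs, hΛ]
        field_simp
        ring
      rw [h2]
      have h3 : X / 2 ≤ m := by linarith
      have h4 : (X / 2) ^ 2 ≤ m * m := by
        rw [← pow_two]
        exact pow_le_pow_left₀ (by linarith) h3 2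
      exact mul_le_mul_of_nonneg_right h4 (by positivity)
    have h5 : κ * (n * d) ≤ -Real.log ((f n).toReal - (g n).toReal) := by
      have h6 := mul_le_mul_of_nonneg_right hmm hd0
      nlinarith
    have h7 : n * d ≤ κ⁻¹ * (-Real.log ((f n).toReal - (g n).toReal)) := by
      rw [le_inv_mul_iff₀ hκ0]
      exact h5
    have h8 : n * e ≤ Real.exp (-(2 * Real.log n)) := by
      calc n * e ≤ n * Real.exp (-(3 * Real.log n)) := by gcongr
        _ = Real.exp (Real.log n) * Real.exp (-(3 * Real.log n)) := by rw [Real.exp_log hn0]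
        _ = Real.exp (-(2 * Real.log n)) := by rw [← Real.exp_add]; ring_nf
    calc n * P.toReal ≤ n * (d + e) := by gcongr
      _ = n * d + n * e := by ring
      _ ≤ U n := add_le_add h7 h8
  have hres : Tendsto (fun n => n * (pk (kn c n) (C * lam n)).toReal) l (𝓝 0) := by
    refine squeeze_zero' ?_ key hU
    filter_upwards [hl (eventually_gt_atTop (1 : ℝ))] with n hn
    have : (0 : ℝ) ≤ (pk (kn c n) (C * lam n)).toReal := ENNReal.toReal_nonneg
    positivity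
  have h9 := ENNReal.tendsto_ofReal hres
  rw [ENNReal.ofReal_zero] at h9
  refine h9.congr' ?_
  filter_upwards [hl (eventually_gt_atTop (1 : ℝ))] with n hn
  have hPt : pk (kn c n) (C * lam n) ≠ ⊤ := ne_top_of_le_ne_top ENNReal.one_ne_top
    (prob_le_one hB Metric.isOpen_ball.measurableSet measure_ball_lt_top.ne _)
  rw [ENNReal.ofReal_mul (by linarith), ENNReal.ofReal_toReal hPt]

end KN
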